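import Mathlib

set_option autoImplicit false

namespace Pool.Agent.H69.Forcing

open MeasureTheory Metric Set Filter Topology ENNReal

lemma enorm_le_circle {h : ℂ → ℂ} {ζ : ℂ} {ρ : ℝ} (hρ : 0 < ρ)
    (hd : DiffContOnCl ℂ h (ball ζ ρ)) :
    ENNReal.ofReal (2 * Real.pi) * ‖h ζ‖ₑ ≤
      ∫⁻ θ in Ioo (-Real.pi) Real.pi, ‖h (ζ + Complex.polarCoord.symm (ρ, θ))‖ₑ := by
  have h1 : Real.circleAverage h ζ ρ = h ζ := by
    apply DiffContOnCl.circleAverage
    rwa [abs_of_pos hρ]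
  have h2 : h ζ = (2 * Real.pi)⁻¹ • ∫ θ in (-Real.pi)..Real.pi, h (circleMap ζ ρ θ) := by
    rw [← h1, Real.circleAverage_eq_integral_add (-Real.pi)]
    congr 1
    rw [intervalIntegral.integral_comp_add_right (fun θ => h (circleMap ζ ρ θ))]
    congr 1 <;> ring
  have h3 : (2 * Real.pi) • h ζ = ∫ θ in (-Real.pi)..Real.pi, h (circleMap ζ ρ θ) := by
    rw [h2, smul_smul, mul_inv_cancel₀ (by positivity), one_smul]
  have h4 : ENNReal.ofReal (2 * Real.pi) * ‖h ζ‖ₑ = ‖(2 * Real.pi) • h ζ‖ₑ := by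
    rw [enorm_smul]
    congr 1
    rw [Real.enorm_eq_ofReal (by positivity)]
  rw [h4, h3, intervalIntegral.integral_of_le (by linarith [Real.pi_pos])]
  refine (enorm_integral_le_lintegral_enorm _).trans ?_
  rw [← restrict_Ioo_eq_restrict_Ioc]
  apply le_of_eq
  apply lintegral_congr
  intro θ
  congr 2
  rw [Complex.polarCoord_symm_apply, circleMap, Complex.exp_mul_I]
  simp

lemma measurable_polar_symm : Measurable (fun p : ℝ × ℝ => Complex.polarCoord.symm p) := by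
  have : (fun p : ℝ × ℝ => Complex.polarCoord.symm p) =
      fun p : ℝ × ℝ => ((p.1 : ℂ) * (Real.cos p.2 + Real.sin p.2 * Complex.I)) := by
    funext p
    exact Complex.polarCoord_symm_apply p
  rw [this]
  fun_prop

/-- Area mean value inequality. -/
lemma enorm_mul_volume_le {h : ℂ → ℂ} {ζ : ℂ} {r : ℝ}
    (hd : DifferentiableOn ℂ h (ball ζ r)) :
    ‖h ζ‖ₑ * volume (ball ζ r) ≤ ∫⁻ z in ball ζ r, ‖h z‖ₑ := by
  have key : ∀ F : ℂ → ℝ≥0∞, Measurable ((ball ζ r).indicator F) → ∫⁻ z in ball ζ r, F z =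
      ∫⁻ ρ in Ioi (0:ℝ), ∫⁻ θ in Ioo (-Real.pi) Real.pi, ENNReal.ofReal ρ *
        ((ball ζ r).indicator F (ζ + Complex.polarCoord.symm (ρ, θ))) := by
    intro F hF
    have h0 : Measurable (fun p : ℝ × ℝ => ENNReal.ofReal p.1 *
        ((ball ζ r).indicator F (ζ + Complex.polarCoord.symm p))) := by
      apply Measurable.mul
      · exact ENNReal.measurable_ofReal.comp measurable_fst
      · exact hF.comp (measurable_const.add measurable_polar_symm)
    rw [← lintegral_indicator measurableSet_ball, ← lintegral_add_left_eq_self _ ζ,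
      ← Complex.lintegral_comp_polarCoord_symm, polarCoord_target, Measure.volume_eq_prod,
      ← Measure.prod_restrict, lintegral_prod]
    · simp only [smul_eq_mul]
    · simp only [smul_eq_mul]
      exact h0.aemeasurable
  have hmeas : ∀ F : ℂ → ℝ≥0∞, ContinuousOn F (ball ζ r) → Measurable ((ball ζ r).indicator F) := by
    classical
    intro F hF
    rw [← Set.piecewise_eq_indicator]
    exact hF.measurable_piecewise continuousOn_const measurableSet_ball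
  have hc : ContinuousOn (fun z => ‖h z‖ₑ) (ball ζ r) := hd.continuousOn.enorm
  rw [key _ (hmeas _ hc), ← setLIntegral_const]
  rw [key _ (hmeas _ continuousOn_const)]
  apply setLIntegral_mono' measurableSet_Ioi
  intro ρ hρ
  have hρ0 : (0:ℝ) < ρ := hρ
  have hmem : ∀ θ : ℝ, (ζ + Complex.polarCoord.symm (ρ, θ) ∈ ball ζ r) ↔ ρ < r := by
    intro θ
    rw [mem_ball, dist_eq_norm, add_sub_cancel_left, Complex.norm_polarCoord_symm,
      abs_of_pos hρ0]
  by_cases hr : ρ < r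
  · have e1 : ∀ F : ℂ → ℝ≥0∞, ∀ θ : ℝ, (ball ζ r).indicator F
        (ζ + Complex.polarCoord.symm (ρ, θ)) = F (ζ + Complex.polarCoord.symm (ρ, θ)) := by
      intro F θ
      exact indicator_of_mem ((hmem θ).2 hr) _
    simp only [e1]
    rw [lintegral_const_mul' _ _ ENNReal.ofReal_ne_top, lintegral_const_mul' _ _ ENNReal.ofReal_ne_top]
    refine mul_le_mul_right ?_ _
    rw [setLIntegral_const, Real.volume_Ioo, mul_comm, show Real.pi - -Real.pi = 2 * Real.pi by ring]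
    apply enorm_le_circle hρ0
    apply DifferentiableOn.diffContOnCl_ball (U := ball ζ r) hd
    exact closedBall_subset_ball hr
  · have e1 : ∀ F : ℂ → ℝ≥0∞, ∀ θ : ℝ, (ball ζ r).indicator F
        (ζ + Complex.polarCoord.symm (ρ, θ)) = 0 := by
      intro F θ
      exact indicator_of_notMem (fun h' => hr ((hmem θ).1 h')) _
    simp only [e1, le_refl]


lemma det_restrictScalars (c : ℂ) :
    ((ContinuousLinearMap.toSpanSingleton ℂ c).restrictScalars ℝ).det = ‖c‖ ^ 2 := by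
  rw [← Complex.normSq_eq_norm_sq, ← Algebra.norm_complex_apply, Algebra.norm_apply]
  unfold ContinuousLinearMap.det
  congr 1
  ext x
  simp [ContinuousLinearMap.toSpanSingleton, mul_comm]

lemma area_formula {f : ℂ → ℂ} {U S : Set ℂ} (hU : IsOpen U) (hf : DifferentiableOn ℂ f U)
    (hinj : InjOn f U) (hS : MeasurableSet S) (hSU : S ⊆ U) :
    ∫⁻ z in S, ‖deriv f z ^ 2‖ₑ = volume (f '' S) := by
  rw [← lintegral_abs_det_fderiv_eq_addHaar_image volume hS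
    (f' := fun z => (ContinuousLinearMap.toSpanSingleton ℂ (deriv f z)).restrictScalars ℝ)
    _ (hinj.mono hSU)]
  · apply lintegral_congr
    intro z
    rw [det_restrictScalars, abs_of_nonneg (by positivity), ← ofReal_norm, norm_pow]
  · intro z hz
    have h1 : DifferentiableAt ℂ f z := hf.differentiableAt (hU.mem_nhds (hSU hz))
    exact (h1.hasDerivAt.hasFDerivAt.restrictScalars ℝ).hasFDerivWithinAt

/-- Real-valued area of the image of a set. -/
noncomputable def V (f : ℂ → ℂ) (W : Set ℂ) : ℝ := (volume (f '' W)).toReal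

lemma V_nonneg (f : ℂ → ℂ) (W : Set ℂ) : 0 ≤ V f W := ENNReal.toReal_nonneg

lemma deriv_bound {f : ℂ → ℂ} {U : Set ℂ} (hU : IsOpen U) (hf : DifferentiableOn ℂ f U)
    (hinj : InjOn f U) {z : ℂ} {r : ℝ} (hr : 0 < r) (hb : ball z r ⊆ U)
    (hfin : volume (f '' ball z r) ≠ ⊤) :
    ‖deriv f z‖ ≤ √(V f (ball z r)) / r := by
  have h1 : ‖deriv f z ^ 2‖ₑ * volume (ball z r) ≤ volume (f '' ball z r) := by
    rw [← area_formula hU hf hinj measurableSet_ball hb]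
    have hd : DifferentiableOn ℂ (fun z => deriv f z ^ 2) (ball z r) :=
      ((hf.mono hb).deriv isOpen_ball).pow 2
    exact enorm_mul_volume_le hd
  have h2 : ‖deriv f z‖ ^ 2 * (Real.pi * r ^ 2) ≤ V f (ball z r) := by
    have h3 := ENNReal.toReal_mono hfin h1
    rw [ENNReal.toReal_mul, toReal_enorm, norm_pow, Complex.volume_ball] at h3
    simp only [ENNReal.toReal_mul, ENNReal.toReal_pow, ENNReal.toReal_ofReal hr.le] at h3
    unfold V
    refine le_trans (le_of_eq ?_) h3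
    rw [ENNReal.coe_toReal, NNReal.coe_real_pi]
    ring
  have h4 : (‖deriv f z‖ * r) ^ 2 ≤ V f (ball z r) := by
    have h5 : (1:ℝ) ≤ Real.pi := by linarith [Real.pi_gt_three]
    have h6 : 0 ≤ ‖deriv f z‖ ^ 2 * r ^ 2 := by positivity
    nlinarith
  rw [le_div_iff₀ hr]
  exact Real.le_sqrt_of_sq_le h4

lemma osc {f : ℂ → ℂ} {U W : Set ℂ} (hU : IsOpen U) (hf : DifferentiableOn ℂ f U)
    (hinj : InjOn f U) {p w : ℂ} {r : ℝ} (hr : 0 < r)
    (hseg : ∀ ζ ∈ segment ℝ p w, ball ζ r ⊆ W) (hW : W ⊆ U)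
    (hfin : volume (f '' W) ≠ ⊤) :
    ‖f w - f p‖ ≤ √(V f W) / r * ‖w - p‖ := by
  apply Convex.norm_image_sub_le_of_norm_deriv_le (𝕜 := ℂ) (s := segment ℝ p w) _ _ (convex_segment p w)
    (left_mem_segment ℝ p w) (right_mem_segment ℝ p w)
  · intro x hx
    have : x ∈ U := hW (hseg x hx (mem_ball_self hr))
    exact hf.differentiableAt (hU.mem_nhds this)
  · intro x hx
    have hsub : f '' ball x r ⊆ f '' W := image_mono (hseg x hx)
    have hfin' : volume (f '' ball x r) ≠ ⊤ := ne_top_of_le_ne_top hfin (measure_mono hsub)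
    refine (deriv_bound hU hf hinj hr ((hseg x hx).trans hW) hfin').trans ?_
    apply div_le_div_of_nonneg_right _ hr.le
    apply Real.sqrt_le_sqrt
    exact ENNReal.toReal_mono hfin (measure_mono hsub)


/-- Open upper half plane. -/
def HP : Set ℂ := {z : ℂ | 0 < z.im}

lemma isOpen_HP : IsOpen HP := isOpen_lt continuous_const Complex.continuous_im

/-- Open box standing on the real axis. -/
def Q (x s : ℝ) : Set ℂ := {z : ℂ | x < z.re ∧ z.re < x + s ∧ 0 < z.im ∧ z.im < s}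

lemma isOpen_Q (x s : ℝ) : IsOpen (Q x s) := by
  have h1 : IsOpen {z : ℂ | x < z.re} := isOpen_lt continuous_const Complex.continuous_re
  have h2 : IsOpen {z : ℂ | z.re < x + s} := isOpen_lt Complex.continuous_re continuous_const
  have h3 : IsOpen {z : ℂ | 0 < z.im} := isOpen_lt continuous_const Complex.continuous_im
  have h4 : IsOpen {z : ℂ | z.im < s} := isOpen_lt Complex.continuous_im continuous_const
  exact h1.inter (h2.inter (h3.inter h4))

lemma Q_subset_HP (x s : ℝ) : Q x s ⊆ HP := fun _ hz => hz.2.2.1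

lemma V_split {f : ℂ → ℂ} (hf : DifferentiableOn ℂ f HP) (hinj : InjOn f HP)
    (hfin : volume (f '' HP) ≠ ⊤) {x s : ℝ} (_hs : 0 < s) :
    V f (Q x (s / 2)) + V f (Q (x + s / 2) (s / 2)) ≤ V f (Q x s) := by
  have hsub1 : Q x (s / 2) ⊆ Q x s := by
    rintro z ⟨h1, h2, h3, h4⟩
    exact ⟨h1, by linarith, h3, by linarith⟩
  have hsub2 : Q (x + s / 2) (s / 2) ⊆ Q x s := by
    rintro z ⟨h1, h2, h3, h4⟩
    exact ⟨by linarith, by linarith, h3, by linarith⟩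
  have hdisj : Disjoint (Q x (s / 2)) (Q (x + s / 2) (s / 2)) := by
    rw [Set.disjoint_left]
    rintro z ⟨h1, h2, h3, h4⟩ ⟨h5, h6, h7, h8⟩
    linarith
  have hle : volume (f '' Q x (s / 2)) + volume (f '' Q (x + s / 2) (s / 2)) ≤
      volume (f '' Q x s) := by
    rw [← area_formula isOpen_HP hf hinj (isOpen_Q _ _).measurableSet (Q_subset_HP _ _),
      ← area_formula isOpen_HP hf hinj (isOpen_Q _ _).measurableSet (Q_subset_HP _ _),
      ← area_formula isOpen_HP hf hinj (isOpen_Q _ _).measurableSet (Q_subset_HP _ _),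
      ← lintegral_union (isOpen_Q _ _).measurableSet hdisj]
    exact lintegral_mono_set (union_subset hsub1 hsub2)
  have hfinQ : ∀ x s, volume (f '' Q x s) ≠ ⊤ := fun x s =>
    ne_top_of_le_ne_top hfin (measure_mono (image_mono (Q_subset_HP x s)))
  unfold V
  rw [← ENNReal.toReal_add (hfinQ _ _) (hfinQ _ _)]
  exact ENNReal.toReal_mono (hfinQ _ _) hle

/-- Centre of the box. -/
noncomputable def ctr (x s : ℝ) : ℂ := ⟨x + s / 2, s / 2⟩

lemma ball_subset_Q {ζ : ℂ} {r x s : ℝ} (h1 : x + r ≤ ζ.re) (h2 : ζ.re + r ≤ x + s)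
    (h3 : r ≤ ζ.im) (h4 : ζ.im + r ≤ s) : ball ζ r ⊆ Q x s := by
  intro z hz
  rw [mem_ball, dist_eq_norm] at hz
  have hre : |z.re - ζ.re| < r := lt_of_le_of_lt (by simpa using Complex.abs_re_le_norm (z - ζ)) hz
  have him : |z.im - ζ.im| < r := lt_of_le_of_lt (by simpa using Complex.abs_im_le_norm (z - ζ)) hz
  rw [abs_lt] at hre him
  exact ⟨by linarith, by linarith, by linarith, by linarith⟩

lemma norm_sub_le_of_abs {z w : ℂ} {a : ℝ} (ha : 0 ≤ a) (h1 : |z.re - w.re| ≤ a)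
    (h2 : |z.im - w.im| ≤ a) : ‖z - w‖ ≤ 3 / 2 * a := by
  have h3 : ‖z - w‖ ^ 2 ≤ 2 * a ^ 2 := by
    rw [← Complex.normSq_eq_norm_sq, Complex.normSq_apply]
    simp only [Complex.sub_re, Complex.sub_im]
    have e1 : (z.re - w.re) ^ 2 ≤ a ^ 2 := sq_le_sq' (by linarith [abs_le.1 h1]) (abs_le.1 h1).2
    have e2 : (z.im - w.im) ^ 2 ≤ a ^ 2 := sq_le_sq' (by linarith [abs_le.1 h2]) (abs_le.1 h2).2
    nlinarith
  apply le_of_sq_le_sq _ (by positivity)
  nlinarith [sq_nonneg a]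

lemma segment_bounds {p w ζ : ℂ} (h : ζ ∈ segment ℝ p w) :
    (∃ t : ℝ, 0 ≤ t ∧ t ≤ 1 ∧ ζ.re = p.re + t * (w.re - p.re) ∧ ζ.im = p.im + t * (w.im - p.im)) := by
  rw [segment_eq_image'] at h
  obtain ⟨t, ⟨h0, h1⟩, rfl⟩ := h
  exact ⟨t, h0, h1, by simp, by simp⟩

/-- one step of the tree: a child of at most half the area whose centre value is close. -/
lemma tree_step {f : ℂ → ℂ} (hf : DifferentiableOn ℂ f HP) (hinj : InjOn f HP)
    (hfin : volume (f '' HP) ≠ ⊤) {x s : ℝ} (hs : 0 < s) :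
    ∃ b : ℕ, b < 2 ∧ V f (Q (x + b * (s / 2)) (s / 2)) ≤ V f (Q x s) / 2 ∧
      ‖f (ctr (x + b * (s / 2)) (s / 2)) - f (ctr x s)‖ ≤ 3 * √(V f (Q x s)) := by
  have hfinQ : ∀ x s, volume (f '' Q x s) ≠ ⊤ := fun x s =>
    ne_top_of_le_ne_top hfin (measure_mono (image_mono (Q_subset_HP x s)))
  have hosc : ∀ b : ℝ, 0 ≤ b → b ≤ 1 →
      ‖f (ctr (x + b * (s / 2)) (s / 2)) - f (ctr x s)‖ ≤ 3 * √(V f (Q x s)) := by
    intro b hb0 hb1
    have h := osc (W := Q x s) isOpen_HP hf hinj (p := ctr x s) (w := ctr (x + b * (s / 2)) (s / 2))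
      (r := s / 8) (by positivity) ?_ (Q_subset_HP _ _) (hfinQ _ _)
    · refine h.trans ?_
      have h2 : ‖ctr (x + b * (s / 2)) (s / 2) - ctr x s‖ ≤ 3 / 2 * (s / 4) := by
        apply norm_sub_le_of_abs (by positivity)
        · simp only [ctr]
          rw [abs_le]
          constructor <;> nlinarith
        · simp only [ctr]
          rw [abs_le]
          constructor <;> linarith
      calc √(V f (Q x s)) / (s / 8) * ‖ctr (x + b * (s / 2)) (s / 2) - ctr x s‖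
          ≤ √(V f (Q x s)) / (s / 8) * (3 / 2 * (s / 4)) := by gcongr
        _ = 3 * √(V f (Q x s)) := by field_simp; ring
    · intro ζ hζ
      obtain ⟨t, ht0, ht1, h1, h2⟩ := segment_bounds hζ
      simp only [ctr] at h1 h2
      have e1 : |t * (x + b * (s / 2) + s / 2 / 2 - (x + s / 2))| ≤ s / 4 := by
        rw [abs_mul, abs_of_nonneg ht0]
        have : |x + b * (s / 2) + s / 2 / 2 - (x + s / 2)| ≤ s / 4 := by
          rw [abs_le]; constructor <;> nlinarith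
        calc t * |x + b * (s / 2) + s / 2 / 2 - (x + s / 2)| ≤ 1 * (s / 4) := by
              apply mul_le_mul ht1 this (abs_nonneg _) (by norm_num)
          _ = s / 4 := by ring
      rw [abs_le] at e1
      apply ball_subset_Q
      · linarith
      · linarith
      · nlinarith
      · nlinarith
  have hsplit := V_split hf hinj hfin (x := x) hs
  by_cases hc : V f (Q x (s / 2)) ≤ V f (Q x s) / 2
  · refine ⟨0, by norm_num, ?_, ?_⟩
    · simpa using hc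
    · simpa using hosc 0 le_rfl zero_le_one
  · refine ⟨1, by norm_num, ?_, ?_⟩
    · have : V f (Q (x + s / 2) (s / 2)) ≤ V f (Q x s) / 2 := by
        push Not at hc
        linarith
      simpa using this
    · simpa using hosc 1 zero_le_one le_rfl

lemma sqrt_half_le {a : ℝ} (ha : 0 ≤ a) : √(a / 2) ≤ 3 / 4 * √a := by
  rw [Real.sqrt_le_left (by positivity), mul_pow, Real.sq_sqrt ha]
  nlinarith

lemma tree_descent {f : ℂ → ℂ} (hf : DifferentiableOn ℂ f HP) (hinj : InjOn f HP)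
    (hfin : volume (f '' HP) ≠ ⊤) {x s : ℝ} (hs : 0 < s) (m : ℕ) :
    ∃ k : ℕ, k < 2 ^ m ∧ V f (Q (x + k * (s / 2 ^ m)) (s / 2 ^ m)) ≤ V f (Q x s) / 2 ^ m ∧
      √(V f (Q (x + k * (s / 2 ^ m)) (s / 2 ^ m))) ≤ √(V f (Q x s)) * (3 / 4) ^ m ∧
      ‖f (ctr (x + k * (s / 2 ^ m)) (s / 2 ^ m)) - f (ctr x s)‖ ≤
        12 * √(V f (Q x s)) * (1 - (3 / 4) ^ m) := by
  induction m with
  | zero => exact ⟨0, by norm_num, by simp, by simp, by simp⟩
  | succ m ih =>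
    obtain ⟨k, hk, h1, h2, h3⟩ := ih
    obtain ⟨b, hb, g1, g2⟩ := tree_step hf hinj hfin (x := x + k * (s / 2 ^ m))
      (s := s / 2 ^ m) (by positivity)
    have hx : x + k * (s / 2 ^ m) + b * (s / 2 ^ m / 2) =
        x + ((2 * k + b : ℕ) : ℝ) * (s / 2 ^ (m + 1)) := by
      push_cast
      field_simp
      ring
    have hs' : s / 2 ^ m / 2 = s / 2 ^ (m + 1) := by
      field_simp
      ring
    rw [hx, hs'] at g1 g2
    refine ⟨2 * k + b, by rw [pow_succ]; omega, ?_, ?_, ?_⟩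
    · refine g1.trans ?_
      calc V f (Q (x + k * (s / 2 ^ m)) (s / 2 ^ m)) / 2 ≤ (V f (Q x s) / 2 ^ m) / 2 := by
            linarith
        _ = V f (Q x s) / 2 ^ (m + 1) := by field_simp; ring
    · refine (Real.sqrt_le_sqrt g1).trans ((sqrt_half_le (V_nonneg _ _)).trans ?_)
      calc 3 / 4 * √(V f (Q (x + k * (s / 2 ^ m)) (s / 2 ^ m)))
          ≤ 3 / 4 * (√(V f (Q x s)) * (3 / 4) ^ m) := by gcongr
        _ = √(V f (Q x s)) * (3 / 4) ^ (m + 1) := by ring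
    · calc ‖f (ctr (x + ((2 * k + b : ℕ) : ℝ) * (s / 2 ^ (m + 1))) (s / 2 ^ (m + 1))) - f (ctr x s)‖
          ≤ ‖f (ctr (x + ((2 * k + b : ℕ) : ℝ) * (s / 2 ^ (m + 1))) (s / 2 ^ (m + 1))) -
              f (ctr (x + k * (s / 2 ^ m)) (s / 2 ^ m))‖ +
            ‖f (ctr (x + k * (s / 2 ^ m)) (s / 2 ^ m)) - f (ctr x s)‖ := norm_sub_le_norm_sub_add_norm_sub _ _ _
        _ ≤ 3 * (√(V f (Q x s)) * (3 / 4) ^ m) + 12 * √(V f (Q x s)) * (1 - (3 / 4) ^ m) := by
            gcongr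
            exact g2.trans (by gcongr)
        _ = 12 * √(V f (Q x s)) * (1 - (3 / 4) ^ (m + 1)) := by ring

lemma norm_vert (a b c : ℝ) : ‖(⟨a, b⟩ : ℂ) - ⟨a, c⟩‖ = |b - c| := by
  have : (⟨a, b⟩ : ℂ) - ⟨a, c⟩ = ((b - c : ℝ) : ℂ) * Complex.I := by
    apply Complex.ext <;> simp
  rw [this, norm_mul, Complex.norm_I, mul_one, Complex.norm_real, Real.norm_eq_abs]

/-- Vertical descent inside a box. -/
lemma vertical_descent {f : ℂ → ℂ} (hf : DifferentiableOn ℂ f HP) (hinj : InjOn f HP)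
    (hfin : volume (f '' HP) ≠ ⊤) {x s : ℝ} (hs : 0 < s) (J : ℕ) :
    ‖f ⟨x + s / 2, s / 2 / 2 ^ J⟩ - f (ctr x s)‖ ≤ J * √(V f (Q x s)) := by
  have hfinQ : ∀ x s, volume (f '' Q x s) ≠ ⊤ := fun x s =>
    ne_top_of_le_ne_top hfin (measure_mono (image_mono (Q_subset_HP x s)))
  induction J with
  | zero => simp [ctr]
  | succ J ih =>
    have h2J : (1:ℝ) ≤ 2 ^ J := one_le_pow₀ (by norm_num)
    have hle : s / 2 / 2 ^ J ≤ s / 2 := div_le_self (by positivity) h2J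
    have hstep : ‖f ⟨x + s / 2, s / 2 / 2 ^ (J + 1)⟩ - f ⟨x + s / 2, s / 2 / 2 ^ J⟩‖ ≤
        √(V f (Q x s)) := by
      have hhalf : s / 2 / 2 ^ (J + 1) = (s / 2 / 2 ^ J) / 2 := by field_simp; ring
      have hpos : 0 < s / 2 / 2 ^ (J + 1) := by positivity
      have h := osc (W := Q x s) isOpen_HP hf hinj (p := ⟨x + s / 2, s / 2 / 2 ^ J⟩)
        (w := ⟨x + s / 2, s / 2 / 2 ^ (J + 1)⟩)
        (r := s / 2 / 2 ^ (J + 1)) hpos ?_ (Q_subset_HP _ _) (hfinQ _ _)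
      · refine h.trans ?_
        have h2 : ‖(⟨x + s / 2, s / 2 / 2 ^ (J + 1)⟩ : ℂ) - ⟨x + s / 2, s / 2 / 2 ^ J⟩‖ =
            s / 2 / 2 ^ (J + 1) := by
          rw [norm_vert, hhalf, abs_sub_comm, abs_of_nonneg]
          · ring
          · have : 0 < s / 2 / 2 ^ J := by positivity
            linarith
        rw [h2, div_mul_cancel₀ _ hpos.ne']
      · intro ζ hζ
        obtain ⟨t, ht0, ht1, h1, h2⟩ := segment_bounds hζ
        simp only at h1 h2
        apply ball_subset_Q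
        · nlinarith
        · nlinarith
        · nlinarith
        · nlinarith
    calc ‖f ⟨x + s / 2, s / 2 / 2 ^ (J + 1)⟩ - f (ctr x s)‖
        ≤ ‖f ⟨x + s / 2, s / 2 / 2 ^ (J + 1)⟩ - f ⟨x + s / 2, s / 2 / 2 ^ J⟩‖ +
          ‖f ⟨x + s / 2, s / 2 / 2 ^ J⟩ - f (ctr x s)‖ := norm_sub_le_norm_sub_add_norm_sub _ _ _
      _ ≤ √(V f (Q x s)) + J * √(V f (Q x s)) := add_le_add hstep ih
      _ = ((J + 1 : ℕ) : ℝ) * √(V f (Q x s)) := by push_cast; ring


/-- Half disc at the origin. -/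
def W (ρ : ℝ) : Set ℂ := HP ∩ ball 0 ρ

lemma tendsto_V_W {f : ℂ → ℂ} (hf : DifferentiableOn ℂ f HP) (hinj : InjOn f HP)
    (hfin : volume (f '' HP) ≠ ⊤) :
    Tendsto (fun n : ℕ => V f (W (3 * (1 / 2) ^ n))) atTop (𝓝 0) := by
  have hmono : ∀ n m : ℕ, n ≤ m → W (3 * (1 / 2) ^ m) ⊆ W (3 * (1 / 2) ^ n) := by
    intro n m hnm
    apply inter_subset_inter_right
    apply ball_subset_ball
    have : ((1:ℝ) / 2) ^ m ≤ (1 / 2) ^ n := pow_le_pow_of_le_one (by norm_num) (by norm_num) hnm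
    linarith
  have h1 : Tendsto (fun n : ℕ => volume (f '' W (3 * (1 / 2) ^ n))) atTop
      (𝓝 (volume (⋂ n : ℕ, f '' W (3 * (1 / 2) ^ n)))) := by
    apply tendsto_measure_iInter_atTop
    · intro n
      apply MeasurableSet.nullMeasurableSet
      apply MeasurableSet.image_of_continuousOn_injOn
      · exact (isOpen_HP.inter isOpen_ball).measurableSet
      · exact hf.continuousOn.mono inter_subset_left
      · exact hinj.mono inter_subset_left
    · intro n m hnm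
      exact image_mono (hmono n m hnm)
    · exact ⟨0, ne_top_of_le_ne_top hfin (measure_mono (image_mono inter_subset_left))⟩
  have h2 : (⋂ n : ℕ, f '' W (3 * (1 / 2) ^ n)) = ∅ := by
    rw [eq_empty_iff_forall_notMem]
    intro y hy
    rw [mem_iInter] at hy
    obtain ⟨z, hz, hzy⟩ := hy 0
    have hz' : ∀ n : ℕ, ‖z‖ < 3 * (1 / 2) ^ n := by
      intro n
      obtain ⟨z', hz', hzy'⟩ := hy n
      have : z' = z := hinj hz'.1 hz.1 (hzy'.trans hzy.symm)
      rw [this] at hz'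
      simpa using hz'.2
    have hz0 : ‖z‖ ≤ 0 := by
      have hl : Tendsto (fun n : ℕ => 3 * ((1:ℝ) / 2) ^ n) atTop (𝓝 (3 * 0)) :=
        (_root_.tendsto_pow_atTop_nhds_zero_of_lt_one (by norm_num) (by norm_num)).const_mul 3
      rw [mul_zero] at hl
      exact ge_of_tendsto' hl (fun n => (hz' n).le)
    have : z = 0 := norm_le_zero_iff.1 hz0
    have him : 0 < z.im := hz.1
    rw [this] at him
    simp at him
  rw [h2, measure_empty] at h1
  have := (ENNReal.tendsto_toReal ENNReal.zero_ne_top).comp h1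
  rw [ENNReal.toReal_zero] at this
  exact this

/-- The points of the forcing set. -/
noncomputable def kpt (n k : ℕ) : ℂ :=
  ⟨(1 / 2) ^ n + k * ((1 / 2) ^ n / 2 ^ (2 * n)) + (1 / 2) ^ n / 2 ^ (2 * n) / 2,
    (1 / 2) ^ n / 2 ^ (2 * n) / 2 / 2 ^ (2 ^ n)⟩

/-- The forcing set. -/
def K : Set ℂ := {z : ℂ | ∃ n k : ℕ, k < 2 ^ (2 * n) ∧ z = kpt n k}

lemma K_subset : K ⊆ HP := by
  rintro z ⟨n, k, hk, rfl⟩
  change 0 < (kpt n k).im
  simp only [kpt]
  positivity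

lemma Q_subset_W (n : ℕ) : Q ((1 / 2) ^ n) ((1 / 2) ^ n) ⊆ W (3 * (1 / 2) ^ n) := by
  rintro z ⟨h1, h2, h3, h4⟩
  refine ⟨h3, ?_⟩
  rw [mem_ball, dist_zero_right]
  have hp : (0:ℝ) < (1 / 2) ^ n := by positivity
  have := norm_sub_le_of_abs (z := z) (w := 0) (a := 2 * (1 / 2) ^ n) (by positivity)
    (by simp only [Complex.zero_re, sub_zero]; rw [abs_of_pos (by linarith)]; linarith)
    (by simp only [Complex.zero_im, sub_zero]; rw [abs_of_pos (by linarith)]; linarith)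
  rw [sub_zero] at this
  refine lt_of_le_of_ne (by linarith) ?_
  intro heq
  have h5 : ‖z‖ ^ 2 = z.re ^ 2 + z.im ^ 2 := by
    rw [← Complex.normSq_eq_norm_sq, Complex.normSq_apply]; ring
  rw [heq] at h5
  nlinarith

lemma exists_kpt {f : ℂ → ℂ} (hf : DifferentiableOn ℂ f HP) (hinj : InjOn f HP)
    (hfin : volume (f '' HP) ≠ ⊤) (n : ℕ) :
    ∃ k : ℕ, k < 2 ^ (2 * n) ∧
      ‖f (kpt n k) - f (ctr ((1 / 2) ^ n) ((1 / 2) ^ n))‖ ≤ 13 * √(V f (W (3 * (1 / 2) ^ n))) := by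
  have hp : (0:ℝ) < (1 / 2) ^ n := by positivity
  obtain ⟨k, hk, h1, -, h3⟩ := tree_descent hf hinj hfin (x := (1 / 2) ^ n) hp (2 * n)
  refine ⟨k, hk, ?_⟩
  have h4 := vertical_descent hf hinj hfin
    (x := (1 / 2) ^ n + k * ((1 / 2) ^ n / 2 ^ (2 * n))) (s := (1 / 2) ^ n / 2 ^ (2 * n))
    (by positivity) (2 ^ n)
  have hV : V f (Q ((1 / 2) ^ n) ((1 / 2) ^ n)) ≤ V f (W (3 * (1 / 2) ^ n)) := by
    apply ENNReal.toReal_mono
    · exact ne_top_of_le_ne_top hfin (measure_mono (image_mono inter_subset_left))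
    · exact measure_mono (image_mono (Q_subset_W n))
  have hV' := Real.sqrt_le_sqrt hV
  have h5 : ((2 ^ n : ℕ) : ℝ) * √(V f (Q ((1 / 2) ^ n + k * ((1 / 2) ^ n / 2 ^ (2 * n)))
      ((1 / 2) ^ n / 2 ^ (2 * n)))) ≤ √(V f (Q ((1 / 2) ^ n) ((1 / 2) ^ n))) := by
    have h6 := Real.sqrt_le_sqrt h1
    rw [Real.sqrt_div (V_nonneg _ _), mul_comm 2 n, pow_mul, Real.sqrt_sq (by positivity)] at h6
    push_cast
    rw [mul_comm]
    rw [le_div_iff₀ (by positivity)] at h6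
    rw [mul_comm 2 n, pow_mul]
    exact h6
  have h7 : 12 * √(V f (Q ((1 / 2) ^ n) ((1 / 2) ^ n))) * (1 - (3 / 4) ^ (2 * n)) ≤
      12 * √(V f (Q ((1 / 2) ^ n) ((1 / 2) ^ n))) := by
    have : (0:ℝ) ≤ (3 / 4) ^ (2 * n) := by positivity
    have h8 := Real.sqrt_nonneg (V f (Q ((1 / 2) ^ n) ((1 / 2) ^ n)))
    nlinarith
  calc ‖f (kpt n k) - f (ctr ((1 / 2) ^ n) ((1 / 2) ^ n))‖ 
      ≤ ‖f (kpt n k) - f (ctr ((1 / 2) ^ n + k * ((1 / 2) ^ n / 2 ^ (2 * n)))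
          ((1 / 2) ^ n / 2 ^ (2 * n)))‖ +
        ‖f (ctr ((1 / 2) ^ n + k * ((1 / 2) ^ n / 2 ^ (2 * n))) ((1 / 2) ^ n / 2 ^ (2 * n))) -
          f (ctr ((1 / 2) ^ n) ((1 / 2) ^ n))‖ := norm_sub_le_norm_sub_add_norm_sub _ _ _
    _ ≤ √(V f (Q ((1 / 2) ^ n) ((1 / 2) ^ n))) + 12 * √(V f (Q ((1 / 2) ^ n) ((1 / 2) ^ n))) :=
        add_le_add (h4.trans h5) (h3.trans h7)
    _ ≤ 13 * √(V f (W (3 * (1 / 2) ^ n))) := by linarith

lemma norm_kpt_le (n k : ℕ) (hk : k < 2 ^ (2 * n)) : ‖kpt n k‖ ≤ 3 * (1 / 2) ^ n := by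
  have hp : (0:ℝ) < (1 / 2) ^ n := by positivity
  have h2 : (0:ℝ) < 2 ^ (2 * n) := by positivity
  have hk' : (k:ℝ) + 1 ≤ 2 ^ (2 * n) := by exact_mod_cast hk
  have hd : ((1:ℝ) / 2) ^ n / 2 ^ (2 * n) ≤ (1 / 2) ^ n :=
    div_le_self hp.le (one_le_pow₀ (by norm_num))
  have hd0 : (0:ℝ) < (1 / 2) ^ n / 2 ^ (2 * n) := by positivity
  have hkd : (k:ℝ) * ((1 / 2) ^ n / 2 ^ (2 * n)) + (1 / 2) ^ n / 2 ^ (2 * n) ≤ (1 / 2) ^ n := by
    calc (k:ℝ) * ((1 / 2) ^ n / 2 ^ (2 * n)) + (1 / 2) ^ n / 2 ^ (2 * n)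
        = ((k:ℝ) + 1) * ((1 / 2) ^ n / 2 ^ (2 * n)) := by ring
      _ ≤ 2 ^ (2 * n) * ((1 / 2) ^ n / 2 ^ (2 * n)) := by gcongr
      _ = (1 / 2) ^ n := by field_simp
  have hk0 : (0:ℝ) ≤ k * ((1 / 2) ^ n / 2 ^ (2 * n)) := by positivity
  have him : (kpt n k).im ≤ (1 / 2) ^ n := by
    simp only [kpt]
    calc ((1:ℝ) / 2) ^ n / 2 ^ (2 * n) / 2 / 2 ^ (2 ^ n) ≤ (1 / 2) ^ n / 2 ^ (2 * n) / 2 :=
          div_le_self (by positivity) (one_le_pow₀ (by norm_num))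
      _ ≤ (1 / 2) ^ n := by linarith
  have him0 : 0 ≤ (kpt n k).im := by simp only [kpt]; positivity
  have hre : (kpt n k).re ≤ 2 * (1 / 2) ^ n := by
    simp only [kpt]; linarith
  have hre0 : 0 ≤ (kpt n k).re := by simp only [kpt]; positivity
  have := norm_sub_le_of_abs (z := kpt n k) (w := 0) (a := 2 * (1 / 2) ^ n) (by positivity)
    (by simp only [Complex.zero_re, sub_zero]; rw [abs_of_nonneg hre0]; linarith)
    (by simp only [Complex.zero_im, sub_zero]; rw [abs_of_nonneg him0]; linarith)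
  rw [sub_zero] at this
  linarith

lemma tendsto_ctr {f : ℂ → ℂ} (hf : DifferentiableOn ℂ f HP) (hinj : InjOn f HP)
    (hfin : volume (f '' HP) ≠ ⊤) {α : ℂ} (hlim : Tendsto f (𝓝[K] 0) (𝓝 α)) :
    Tendsto (fun n : ℕ => f (ctr ((1 / 2) ^ n) ((1 / 2) ^ n))) atTop (𝓝 α) := by
  choose k hk hk2 using exists_kpt hf hinj hfin
  have h1 : Tendsto (fun n : ℕ => kpt n (k n)) atTop (𝓝[K] 0) := by
    rw [tendsto_nhdsWithin_iff]
    refine ⟨?_, Eventually.of_forall fun n => ⟨n, k n, hk n, rfl⟩⟩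
    apply squeeze_zero_norm (fun n => norm_kpt_le n (k n) (hk n))
    have : Tendsto (fun n : ℕ => 3 * ((1:ℝ) / 2) ^ n) atTop (𝓝 (3 * 0)) :=
        (_root_.tendsto_pow_atTop_nhds_zero_of_lt_one (by norm_num) (by norm_num)).const_mul 3
    simpa using this
  have h2 : Tendsto (fun n : ℕ => f (kpt n (k n))) atTop (𝓝 α) := hlim.comp h1
  have h3 : Tendsto (fun n : ℕ => f (kpt n (k n)) - f (ctr ((1 / 2) ^ n) ((1 / 2) ^ n))) atTop (𝓝 0) := by
    apply squeeze_zero_norm hk2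
    have h4 := (tendsto_V_W hf hinj hfin).sqrt
    rw [Real.sqrt_zero] at h4
    simpa using h4.const_mul 13
  have h4 := h2.sub h3
  simpa using h4


lemma exists_scale {t : ℝ} (h0 : 0 < t) (N : ℕ) (h1 : t < (1 / 2) ^ N) :
    ∃ n : ℕ, N ≤ n ∧ (1 / 2) ^ n ≤ t ∧ t ≤ 2 * (1 / 2) ^ n := by
  have ht1 : t ≤ 1 := h1.le.trans (pow_le_one₀ (by norm_num) (by norm_num))
  obtain ⟨n, hn1, hn2⟩ := exists_nat_pow_near_of_lt_one h0 ht1 (y := (1:ℝ) / 2) (by norm_num) (by norm_num)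
  refine ⟨n + 1, ?_, hn1.le, ?_⟩
  · by_contra hc
    have : n + 1 ≤ N := by omega
    have h2 : ((1:ℝ) / 2) ^ N ≤ (1 / 2) ^ (n + 1) :=
      pow_le_pow_of_le_one (by norm_num) (by norm_num) this
    linarith
  · rw [pow_succ]
    linarith

/-- `K` is forcing. -/
theorem forcing {f : ℂ → ℂ} (hf : DifferentiableOn ℂ f HP) (hinj : InjOn f HP)
    (hmaps : MapsTo f HP (ball 0 1)) {α : ℂ} (hlim : Tendsto f (𝓝[K] 0) (𝓝 α))
    {θ : ℝ} (hθ0 : 0 < θ) (hθ1 : θ < Real.pi / 2) :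
    Tendsto f (𝓝[{z : ℂ | z ≠ 0 ∧ θ ≤ Complex.arg z ∧ Complex.arg z ≤ Real.pi - θ}] 0) (𝓝 α) := by
  have hfin : volume (f '' HP) ≠ ⊤ := by
    apply ne_top_of_le_ne_top _ (measure_mono hmaps.image_subset)
    exact measure_ball_lt_top.ne
  have hsin : 0 < Real.sin θ := Real.sin_pos_of_pos_of_lt_pi hθ0 (by linarith)
  have hsin1 : Real.sin θ ≤ 1 := Real.sin_le_one θ
  set η : ℝ := Real.sin θ / 2 with hη
  have hη0 : 0 < η := by positivity
  have hη1 : η ≤ 1 / 2 := by linarith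
  rw [Metric.tendsto_nhds]
  intro ε hε
  have hA : ∀ᶠ n : ℕ in atTop, 4 / η * √(V f (W (3 * (1 / 2) ^ n))) < ε / 2 := by
    have h4 := ((tendsto_V_W hf hinj hfin).sqrt).const_mul (4 / η)
    rw [Real.sqrt_zero, mul_zero] at h4
    exact h4.eventually_lt_const (by positivity)
  have hB : ∀ᶠ n : ℕ in atTop, dist (f (ctr ((1 / 2) ^ n) ((1 / 2) ^ n))) α < ε / 2 :=
    (Metric.tendsto_nhds.1 (tendsto_ctr hf hinj hfin hlim)) _ (by positivity)
  obtain ⟨N, hN⟩ := (hA.and hB).exists_forall_of_atTop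
  rw [eventually_nhdsWithin_iff]
  filter_upwards [Metric.ball_mem_nhds (0:ℂ) (show (0:ℝ) < (1 / 2) ^ N by positivity)]
  intro z hz ⟨hz0, hz1, hz2⟩
  rw [mem_ball, dist_zero_right] at hz
  have hzpos : 0 < ‖z‖ := norm_pos_iff.2 hz0
  obtain ⟨n, hnN, hn1, hn2⟩ := exists_scale hzpos N hz
  obtain ⟨hA', hB'⟩ := hN n hnN
  have hp : (0:ℝ) < (1 / 2) ^ n := by positivity
  have hzim : 2 * η * (1 / 2) ^ n ≤ z.im := by
    have h1 : z.im = ‖z‖ * Real.sin z.arg := (Complex.norm_mul_sin_arg z).symm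
    have h2 : Real.sin θ ≤ Real.sin z.arg := by
      rcases le_total z.arg (Real.pi / 2) with h | h
      · exact Real.sin_le_sin_of_le_of_le_pi_div_two (by linarith) h hz1
      · rw [← Real.sin_pi_sub z.arg]
        exact Real.sin_le_sin_of_le_of_le_pi_div_two (by linarith) (by linarith) (by linarith)
    rw [h1]
    calc 2 * η * (1 / 2) ^ n = (1 / 2) ^ n * Real.sin θ := by rw [hη]; ring
      _ ≤ ‖z‖ * Real.sin z.arg := by gcongr
  set p : ℂ := ctr ((1 / 2) ^ n) ((1 / 2) ^ n) with hpdef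
  have hpim : p.im = (1 / 2) ^ n / 2 := rfl
  have hpnorm : ‖p‖ ≤ 2 * (1 / 2) ^ n := by
    have h5 : ‖p‖ ^ 2 = p.re ^ 2 + p.im ^ 2 := by
      rw [← Complex.normSq_eq_norm_sq, Complex.normSq_apply]; ring
    have hpre : p.re = (1 / 2) ^ n + (1 / 2) ^ n / 2 := rfl
    rw [hpre, hpim] at h5
    apply le_of_sq_le_sq _ (by positivity)
    rw [h5]
    nlinarith
  have hosc := osc (W := W (3 * (1 / 2) ^ n)) isOpen_HP hf hinj (p := p) (w := z)
    (r := η * (1 / 2) ^ n) (by positivity) ?_ inter_subset_left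
    (ne_top_of_le_ne_top hfin (measure_mono (image_mono inter_subset_left)))
  · have hzp : ‖z - p‖ ≤ 4 * (1 / 2) ^ n := by
      calc ‖z - p‖ ≤ ‖z‖ + ‖p‖ := norm_sub_le _ _
        _ ≤ 4 * (1 / 2) ^ n := by linarith
    have h6 : ‖f z - f p‖ ≤ 4 / η * √(V f (W (3 * (1 / 2) ^ n))) := by
      refine hosc.trans ?_
      calc √(V f (W (3 * (1 / 2) ^ n))) / (η * (1 / 2) ^ n) * ‖z - p‖
          ≤ √(V f (W (3 * (1 / 2) ^ n))) / (η * (1 / 2) ^ n) * (4 * (1 / 2) ^ n) := by gcongr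
        _ = 4 / η * √(V f (W (3 * (1 / 2) ^ n))) := by field_simp
    calc dist (f z) α ≤ dist (f z) (f p) + dist (f p) α := dist_triangle _ _ _
      _ < ε / 2 + ε / 2 := by
          rw [dist_eq_norm (f z) (f p)]
          exact add_lt_add (h6.trans_lt hA') hB'
      _ = ε := by ring
  · intro ζ hζ
    obtain ⟨t, ht0, ht1, h1, h2⟩ := segment_bounds hζ
    have hζim : η * (1 / 2) ^ n ≤ ζ.im := by
      rw [h2, hpim]
      have e1 : η * (1 / 2) ^ n ≤ (1 / 2) ^ n / 2 := by nlinarith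
      have e2 : η * (1 / 2) ^ n ≤ z.im := by nlinarith
      nlinarith
    have hζnorm : ‖ζ‖ ≤ 2 * (1 / 2) ^ n := by
      have hcvx : Convex ℝ (closedBall (0:ℂ) (2 * (1 / 2) ^ n)) := convex_closedBall _ _
      have := hcvx.segment_subset (x := p) (y := z) (by simpa using hpnorm) (by simpa using hn2) hζ
      simpa using this
    intro x hx
    rw [mem_ball, dist_eq_norm] at hx
    have him : |x.im - ζ.im| < η * (1 / 2) ^ n :=
      lt_of_le_of_lt (by simpa using Complex.abs_im_le_norm (x - ζ)) hx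
    rw [abs_lt] at him
    refine ⟨?_, ?_⟩
    · change 0 < x.im
      linarith
    · rw [mem_ball, dist_zero_right]
      calc ‖x‖ = ‖(x - ζ) + ζ‖ := by ring_nf
        _ ≤ ‖x - ζ‖ + ‖ζ‖ := norm_add_le _ _
        _ < η * (1 / 2) ^ n + 2 * (1 / 2) ^ n := by linarith
        _ ≤ 3 * (1 / 2) ^ n := by nlinarith


lemma near_of_hyp {z w : ℂ} (hz : 0 < z.im) (hw : 0 < w.im)
    (h : 2 * Real.arsinh (‖z - w‖ / (2 * √(z.im * w.im))) < 2 * Real.arsinh (1 / 2)) :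
    ‖z - w‖ < 2 * w.im := by
  have h1 : ‖z - w‖ / (2 * √(z.im * w.im)) < 1 / 2 := by
    rw [← Real.arsinh_lt_arsinh]
    linarith
  have hs : 0 < √(z.im * w.im) := Real.sqrt_pos.2 (by positivity)
  have hsq : √(z.im * w.im) ^ 2 = z.im * w.im := Real.sq_sqrt (by positivity)
  rw [div_lt_iff₀ (by positivity)] at h1
  have h2 : ‖z - w‖ < √(z.im * w.im) := by linarith
  have h3 : |z.im - w.im| ≤ ‖z - w‖ := by simpa using Complex.abs_im_le_norm (z - w)
  have h4 : z.im < 3 * w.im := by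
    have h5 : z.im - w.im < √(z.im * w.im) := (le_abs_self _).trans_lt (h3.trans_lt h2)
    have h6 : √(z.im * w.im) ≤ (z.im + w.im) / 2 := by
      apply Real.sqrt_le_iff.2
      constructor
      · positivity
      · nlinarith [sq_nonneg (z.im - w.im)]
    linarith
  refine h2.trans_le ?_
  apply Real.sqrt_le_iff.2
  constructor
  · positivity
  · nlinarith

/-- height of the points at level `n`. -/
noncomputable def ht (n : ℕ) : ℝ := (1 / 2) ^ n / 2 ^ (2 * n) / 2 / 2 ^ (2 ^ n)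

lemma kpt_im (n k : ℕ) : (kpt n k).im = ht n := rfl

lemma ht_pos (n : ℕ) : 0 < ht n := by unfold ht; positivity

lemma ht_le (n : ℕ) : (2 ^ (2 * n) : ℝ) * (4 * ht n) ≤ 2 * (1 / 4) ^ n := by
  unfold ht
  have h1 : (2:ℝ) ^ n ≤ 2 ^ (2 ^ n) := pow_le_pow_right₀ (by norm_num) Nat.lt_two_pow_self.le
  have h2 : (2 ^ (2 * n) : ℝ) * (4 * ((1 / 2) ^ n / 2 ^ (2 * n) / 2 / 2 ^ (2 ^ n))) =
      2 * ((1 / 2) ^ n / 2 ^ (2 ^ n)) := by
    field_simp
    ring
  rw [h2]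
  have h3 : ((1:ℝ) / 2) ^ n / 2 ^ (2 ^ n) ≤ (1 / 4) ^ n := by
    rw [div_le_iff₀ (by positivity)]
    have h4 : ((1:ℝ) / 4) ^ n = (1 / 2) ^ n * (1 / 2) ^ n := by
      rw [← mul_pow]; norm_num
    rw [h4, mul_assoc]
    have h5 : (1:ℝ) ≤ (1 / 2) ^ n * 2 ^ (2 ^ n) := by
      calc (1:ℝ) = (1 / 2) ^ n * 2 ^ n := by rw [← mul_pow]; norm_num
        _ ≤ (1 / 2) ^ n * 2 ^ (2 ^ n) := by gcongr
    have h6 : (0:ℝ) < (1 / 2) ^ n := by positivity
    nlinarith
  linarith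

lemma ht_small (n : ℕ) : 2 * ht n ≤ (1 / 2) ^ n / 2 := by
  unfold ht
  have h1 : (1:ℝ) ≤ 2 ^ (2 * n) := one_le_pow₀ (by norm_num)
  have h2 : (2:ℝ) ≤ 2 ^ (2 ^ n) := by
    calc (2:ℝ) = 2 ^ 1 := by norm_num
      _ ≤ 2 ^ (2 ^ n) := pow_le_pow_right₀ (by norm_num) Nat.one_le_two_pow
  calc 2 * (((1:ℝ) / 2) ^ n / 2 ^ (2 * n) / 2 / 2 ^ (2 ^ n))
      ≤ 2 * ((1 / 2) ^ n / 1 / 2 / 2) := by gcongr
    _ = (1 / 2) ^ n / 2 := by ring

/-- The radial projection of the hyperbolic neighbourhood. -/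
def B : Set ℝ := (fun z : ℂ => ‖z‖) '' {z : ℂ | 0 < z.im ∧ ∃ w ∈ K,
  2 * Real.arsinh (‖z - w‖ / (2 * √(z.im * w.im))) < 2 * Real.arsinh (1 / 2)}

lemma volume_B_le {r : ℝ} (hr0 : 0 < r) (hr1 : r < 1 / 2) :
    volume (B ∩ Ioo 0 r) ≤ ENNReal.ofReal (12 * r ^ 2) := by
  obtain ⟨n0, hn1, hn2⟩ := exists_nat_pow_near_of_lt_one (show 0 < 2 * r by linarith)
    (show 2 * r ≤ 1 by linarith) (y := (1:ℝ) / 2) (by norm_num) (by norm_num)
  have hsub : B ∩ Ioo 0 r ⊆ ⋃ j : ℕ, ⋃ k ∈ Finset.range (2 ^ (2 * (n0 + 1 + j))),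
      Ioo (‖kpt (n0 + 1 + j) k‖ - 2 * ht (n0 + 1 + j)) (‖kpt (n0 + 1 + j) k‖ + 2 * ht (n0 + 1 + j)) := by
    rintro t ⟨⟨z, ⟨hz, w, ⟨n, k, hk, rfl⟩, hzw⟩, rfl⟩, ht0, htr⟩
    have hwim : 0 < (kpt n k).im := by rw [kpt_im]; exact ht_pos n
    have h1 := near_of_hyp hz hwim hzw
    rw [kpt_im] at h1
    have h2 : |‖z‖ - ‖kpt n k‖| < 2 * ht n := (abs_norm_sub_norm_le _ _).trans_lt h1
    rw [abs_lt] at h2
    have h3 : (1 / 2) ^ n ≤ ‖kpt n k‖ := by
      have h4 : (kpt n k).re ≤ ‖kpt n k‖ := Complex.re_le_norm _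
      have h5 : (1 / 2) ^ n ≤ (kpt n k).re := by
        simp only [kpt]
        have e1 : (0:ℝ) ≤ k * ((1 / 2) ^ n / 2 ^ (2 * n)) := by positivity
        have e2 : (0:ℝ) ≤ (1 / 2) ^ n / 2 ^ (2 * n) / 2 := by positivity
        linarith
      linarith
    have h6 := ht_small n
    have htr' : ‖z‖ < r := htr
    have h7 : ((1:ℝ) / 2) ^ n < 2 * r := by linarith
    have h8 : n0 + 1 ≤ n := by
      by_contra hc
      have : n ≤ n0 := by omega
      have h9 : ((1:ℝ) / 2) ^ n0 ≤ (1 / 2) ^ n :=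
        pow_le_pow_of_le_one (by norm_num) (by norm_num) this
      linarith
    obtain ⟨j, rfl⟩ := Nat.exists_eq_add_of_le h8
    rw [mem_iUnion]
    refine ⟨j, ?_⟩
    rw [mem_iUnion₂]
    refine ⟨k, Finset.mem_range.2 hk, ?_⟩
    constructor
    · change _ < ‖z‖
      linarith
    · change ‖z‖ < _
      linarith
  have hq : ((1:ℝ) / 4) ^ (n0 + 1) ≤ (2 * r) ^ 2 := by
    have e1 : ((1:ℝ) / 4) ^ (n0 + 1) = ((1 / 2) ^ (n0 + 1)) ^ 2 := by
      rw [← pow_mul, mul_comm, pow_mul]; norm_num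
    rw [e1]
    gcongr
  calc volume (B ∩ Ioo 0 r) ≤ volume (⋃ j : ℕ, ⋃ k ∈ Finset.range (2 ^ (2 * (n0 + 1 + j))),
      Ioo (‖kpt (n0 + 1 + j) k‖ - 2 * ht (n0 + 1 + j))
        (‖kpt (n0 + 1 + j) k‖ + 2 * ht (n0 + 1 + j))) := measure_mono hsub
    _ ≤ ∑' j : ℕ, volume (⋃ k ∈ Finset.range (2 ^ (2 * (n0 + 1 + j))),
      Ioo (‖kpt (n0 + 1 + j) k‖ - 2 * ht (n0 + 1 + j))
        (‖kpt (n0 + 1 + j) k‖ + 2 * ht (n0 + 1 + j))) := measure_iUnion_le _
    _ ≤ ∑' j : ℕ, ENNReal.ofReal (2 * (1 / 4) ^ (n0 + 1) * (1 / 4) ^ j) := by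
      apply ENNReal.tsum_le_tsum
      intro j
      refine (measure_biUnion_finset_le _ _).trans ?_
      simp only [Real.volume_Ioo]
      have e1 : ∀ k : ℕ, ‖kpt (n0 + 1 + j) k‖ + 2 * ht (n0 + 1 + j) -
          (‖kpt (n0 + 1 + j) k‖ - 2 * ht (n0 + 1 + j)) = 4 * ht (n0 + 1 + j) := by
        intro k; ring
      simp only [e1]
      rw [Finset.sum_const, Finset.card_range, nsmul_eq_mul, ← ENNReal.ofReal_natCast,
        ← ENNReal.ofReal_mul (by positivity)]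
      apply ENNReal.ofReal_le_ofReal
      have e2 := ht_le (n0 + 1 + j)
      push_cast
      rw [pow_add (1 / 4 : ℝ)] at e2
      linarith
    _ = ENNReal.ofReal (∑' j : ℕ, 2 * (1 / 4) ^ (n0 + 1) * (1 / 4) ^ j) := by
      rw [ENNReal.ofReal_tsum_of_nonneg]
      · intro j; positivity
      · apply Summable.mul_left
        exact summable_geometric_of_lt_one (by norm_num) (by norm_num)
    _ ≤ ENNReal.ofReal (12 * r ^ 2) := by
      apply ENNReal.ofReal_le_ofReal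
      rw [tsum_mul_left, tsum_geometric_of_lt_one (by norm_num) (by norm_num)]
      nlinarith

/-- The negation of the radial thickness statement. -/
theorem main :
    ¬ (∀ l : ℝ, 0 < l → ∀ K : Set ℂ, K ⊆ {z : ℂ | 0 < z.im} →
      (∀ f : ℂ → ℂ, DifferentiableOn ℂ f {z : ℂ | 0 < z.im} →
          Set.InjOn f {z : ℂ | 0 < z.im} →
          Set.MapsTo f {z : ℂ | 0 < z.im} (Metric.ball (0 : ℂ) 1) →
          ∀ α : ℂ, Filter.Tendsto f (nhdsWithin 0 K) (nhds α) →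
            ∀ θ : ℝ, 0 < θ → θ < Real.pi / 2 →
              Filter.Tendsto f
                (nhdsWithin 0 {z : ℂ | z ≠ 0 ∧ θ ≤ Complex.arg z ∧ Complex.arg z ≤ Real.pi - θ})
                (nhds α)) →
      ∃ c : ℝ, 0 < c ∧ ∀ δ : ℝ, 0 < δ → ∃ r : ℝ, 0 < r ∧ r < δ ∧
        c * r ≤ (MeasureTheory.volume
          (((fun z : ℂ => ‖z‖) '' {z : ℂ | 0 < z.im ∧ ∃ w ∈ K,
              2 * Real.arsinh (‖z - w‖ / (2 * Real.sqrt (z.im * w.im))) < l})
            ∩ Set.Ioo (0 : ℝ) r)).toReal) := by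
  intro h
  obtain ⟨c, hc, h2⟩ := h (2 * Real.arsinh (1 / 2))
    (by have : 0 < Real.arsinh (1 / 2) := Real.arsinh_pos_iff.2 (by norm_num)
        positivity) K K_subset
    (fun f hf hinj hmaps α hlim θ hθ0 hθ1 => forcing hf hinj hmaps hlim hθ0 hθ1)
  obtain ⟨r, hr0, hr1, hr2⟩ := h2 (min (1 / 2) (c / 12)) (by positivity)
  have hr3 : r < 1 / 2 := hr1.trans_le (min_le_left _ _)
  have hr4 : r < c / 12 := hr1.trans_le (min_le_right _ _)
  have h3 := ENNReal.toReal_mono ENNReal.ofReal_ne_top (volume_B_le hr0 hr3)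
  rw [ENNReal.toReal_ofReal (by positivity)] at h3
  have h4 : c * r ≤ 12 * r ^ 2 := hr2.trans h3
  nlinarith

end Pool.Agent.H69.Forcing
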